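import Pool.Agent.H13.CZ.Lgm

/-!
# CZ-ASM: `Q` is not an eigenvalue

Over `ℂ`: `P = ∏ (1 - ρ X)` (`ρ` the roots of `V`) is the image of `V.reverse ∈ ℤ[X]` (`V` monic; `reverse_mul_of_domain`,
`V = ∏ (X - ρ)`), and `V.reverse` at `1` is `V(1) = h`. `M = ∏_(α ∈ A) (1 - α X)`. By `lg_prod`, `lg_pow`, `lg_lin`,
`lg_mul`, `lg_map` (for `ℚ → ℂ`) and `hA` the series `M (1 - Q X) ^ (n - 1)` and `P ^ (n - 1) (1 - Q² X) ^ (n - 1) E` have
the same `b r` for `r ≥ 1`, so they are equal (`lg_unique`). Suppose `Q ∈ A`; `M₁ = ∏_(α ∈ A.erase Q) (1 - α X)`. Then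
`(*)  M₁ H = G E` in `ℂ[[X]]` with `H = (1 - Q X) ^ n`, `G = (V.reverse) ^ (n - 1) (1 - Q² X) ^ (n - 1)` in `ℤ[X]`.
`H` is invertible in `ℤ[[X]]`, so the coefficients of `M₁ = G H⁻¹ E` are images of rational numbers with
denominators prime to `l` (`hEl`; constant coefficient of `E` is `1`). `M₁` is a polynomial, so with a common denominator
`b` prime to `l`: `b M₁` is the image of `M₂ ∈ ℤ[X]`. The coefficients of `M₂ H - b G ∈ ℤ[X]` are `b` times the
coefficients of `G (E - 1)`, so they are integers and in `l Z_(l)`, so divisible by `l`. In `(ZMod l)[X]`, where `Q = 1`: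
`M₂ (1 - X) ^ n = b (V.reverse) ^ (n - 1) (1 - X) ^ (n - 1)`, so `M₂ (1 - X) = b (V.reverse) ^ (n - 1)`, and at `X = 1`:
`0 = b h ^ (n - 1)`, a contradiction.
-/

set_option autoImplicit false

open Polynomial

noncomputable section

namespace H13.CZ

private theorem den_all {l : ℕ} (hl : l.Prime) {E : PowerSeries ℚ}
    (hEl : ∀ m : ℕ, m ≠ 0 → ∃ a b : ℤ, ¬ (l : ℤ) ∣ b ∧ (b : ℚ) * PowerSeries.coeff m E = l * a) (m : ℕ) :
    ∃ b : ℤ, ¬ (l : ℤ) ∣ b ∧ ∀ j : ℕ, j ≠ 0 → j ≤ m → ∃ a : ℤ, (b : ℚ) * PowerSeries.coeff j E = l * a := by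
  induction m with
  | zero => exact ⟨1, fun h => hl.one_lt.ne' (by exact_mod_cast Int.eq_one_of_dvd_one (by positivity) h),
      fun j hj hj' => absurd (Nat.le_zero.1 hj') hj⟩
  | succ m ih =>
    obtain ⟨b, hb, hb'⟩ := ih
    obtain ⟨a, d, hd, ha⟩ := hEl (m + 1) (Nat.succ_ne_zero m)
    refine ⟨b * d, fun h => ?_, fun j hj hj' => ?_⟩
    · rcases (Nat.prime_iff_prime_int.1 hl).dvd_or_dvd h with h1 | h1
      · exact hb h1
      · exact hd h1
    · rcases Nat.lt_or_ge m j with h1 | h1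
      · have h2 : j = m + 1 := le_antisymm hj' h1
        refine ⟨b * a, ?_⟩
        rw [h2]
        push_cast
        calc (b : ℚ) * d * PowerSeries.coeff (m + 1) E = b * (d * PowerSeries.coeff (m + 1) E) := by ring
          _ = _ := by rw [ha]; ring
      · obtain ⟨a', ha'⟩ := hb' j hj h1
        refine ⟨d * a', ?_⟩
        push_cast
        calc (b : ℚ) * d * PowerSeries.coeff j E = d * (b * PowerSeries.coeff j E) := by ring
          _ = _ := by rw [ha']; ring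

private theorem dvd_of_zero {l : ℕ} (hl : l.Prime) {E : PowerSeries ℚ} (hE0 : PowerSeries.coeff 0 E = 1)
    (hEl : ∀ m : ℕ, m ≠ 0 → ∃ a b : ℤ, ¬ (l : ℤ) ∣ b ∧ (b : ℚ) * PowerSeries.coeff m E = l * a)
    (W : PowerSeries ℤ) (m : ℕ)
    (h0 : PowerSeries.coeff m (PowerSeries.map (Int.castRingHom ℚ) W * E) = 0) :
    (l : ℤ) ∣ PowerSeries.coeff m W := by
  obtain ⟨b, hb, hb'⟩ := den_all hl hEl m
  have h1 : ∀ j : ℕ, ∃ a : ℤ, j ≠ 0 → j ≤ m → (b : ℚ) * PowerSeries.coeff j E = l * a := by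
    intro j
    by_cases hj : j ≠ 0 ∧ j ≤ m
    · obtain ⟨a, ha⟩ := hb' j hj.1 hj.2
      exact ⟨a, fun _ _ => ha⟩
    · exact ⟨0, fun h h' => absurd ⟨h, h'⟩ hj⟩
  choose a ha using h1
  rw [PowerSeries.coeff_mul, Finset.Nat.sum_antidiagonal_eq_sum_range_succ_mk,
    ← Finset.sum_range_reflect, Finset.sum_range_succ'] at h0
  simp only [PowerSeries.coeff_map, eq_intCast] at h0
  have e0 : m - (m + 1 - 1 - 0) = 0 := by omega
  have e1 : m + 1 - 1 - 0 = m := by omega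
  rw [e0, e1, hE0, mul_one] at h0
  have h2 : (b : ℚ) * (PowerSeries.coeff m W : ℤ) +
      l * ((∑ j ∈ Finset.range m, PowerSeries.coeff (m + 1 - 1 - (j + 1)) W * a (j + 1) : ℤ) : ℚ) = 0 := by
    have h3 := congrArg (fun t : ℚ => (b : ℚ) * t) h0
    simp only [mul_zero, mul_add, Finset.mul_sum] at h3
    rw [← h3, add_comm]
    congr 1
    rw [Int.cast_sum, Finset.mul_sum]
    refine Finset.sum_congr rfl fun j hj => ?_
    rw [Int.cast_mul]
    have hj' := Finset.mem_range.1 hj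
    have e2 : m - (m.succ - 1 - (j + 1)) = j + 1 := by omega
    have e3 : m.succ - 1 - (j + 1) = m - (j + 1) := by omega
    rw [e2]
    simp only [e3]
    have h4 := ha (j + 1) (Nat.succ_ne_zero j) (by omega)
    calc (l : ℚ) * ((PowerSeries.coeff (m - (j + 1)) W : ℤ) * (a (j + 1) : ℚ))
        = (PowerSeries.coeff (m - (j + 1)) W : ℤ) * (l * (a (j + 1) : ℚ)) := by ring
      _ = _ := by rw [← h4]; ring
  have h3 : b * PowerSeries.coeff m W +
      l * (∑ j ∈ Finset.range m, PowerSeries.coeff (m + 1 - 1 - (j + 1)) W * a (j + 1)) = 0 := by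
    exact_mod_cast h2
  have h4 : (l : ℤ) ∣ b * PowerSeries.coeff m W := by
    rw [eq_neg_of_add_eq_zero_left h3]
    exact (Dvd.intro _ rfl).neg_right
  exact ((Nat.prime_iff_prime_int.1 hl).dvd_or_dvd h4).resolve_left hb

private theorem rev_prod (s : Multiset ℂ) : ((s.map fun ρ => X - C ρ).prod : ℂ[X]).reverse =
    (s.map fun ρ => 1 - C ρ * X).prod := by
  induction s using Multiset.induction_on with
  | empty => simp [Polynomial.reverse]
  | cons a s ih =>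
    rw [Multiset.map_cons, Multiset.prod_cons, Multiset.map_cons, Multiset.prod_cons,
      Polynomial.reverse_mul_of_domain, ih]
    congr 1
    simp [Polynomial.reverse]

private theorem rev_aroots {V : ℤ[X]} (hV : V.Monic) :
    V.reverse.map (Int.castRingHom ℂ) = ((V.aroots ℂ).map fun ρ => 1 - C ρ * X).prod := by
  have h1 : V.map (Int.castRingHom ℂ) = ((V.aroots ℂ).map fun ρ => X - C ρ).prod :=
    (IsAlgClosed.splits (V.map (Int.castRingHom ℂ))).eq_prod_roots_of_monic (hV.map _)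
  rw [← rev_prod, ← h1]
  unfold Polynomial.reverse
  rw [Polynomial.reflect_map, Polynomial.natDegree_map_eq_of_injective (Int.castRingHom ℂ).injective_int]

private theorem eval_rev (V : ℤ[X]) : V.reverse.eval 1 = V.eval 1 := by
  let _ : Invertible (1 : ℤ) := invertibleOne
  have h1 := Polynomial.eval₂_reverse_mul_pow (RingHom.id ℤ) 1 V
  simp only [invOf_one, one_pow, mul_one] at h1
  exact h1

private theorem coe_prod (s : Multiset ℂ) :
    (((s.map fun ρ => 1 - C ρ * X).prod : ℂ[X]) : PowerSeries ℂ) =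
      (s.map fun α => 1 - PowerSeries.C α * PowerSeries.X).prod := by
  induction s using Multiset.induction_on with
  | empty => simp
  | cons a s ih =>
    rw [Multiset.map_cons, Multiset.prod_cons, Multiset.map_cons, Multiset.prod_cons,
      Polynomial.coe_mul, ih]
    congr 1
    simp

theorem asm (l n Q h : ℕ) (hl : l.Prime) (hQ : l ∣ Q - 1) (hQ1 : 2 ≤ Q) (hn : n ≠ 0) (V : ℤ[X])
    (hV : V.Monic) (hV1 : V.eval 1 = h) (hlh : ¬ l ∣ h) (c : ℕ → ℤ) (E : PowerSeries ℚ)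
    (hE : Lg E (fun r => (c r : ℚ)))
    (hEl : ∀ m : ℕ, m ≠ 0 → ∃ a b : ℤ, ¬ (l : ℤ) ∣ b ∧ (b : ℚ) * PowerSeries.coeff m E = l * a)
    (A : Multiset ℂ) (hA : ∀ r : ℕ, r ≠ 0 → (A.map fun α => α ^ r).sum =
      ((n : ℂ) - 1) * ((V.aroots ℂ).map fun ρ => ρ ^ r).sum +
        ((n : ℂ) - 1) * ((Q : ℂ) ^ (2 * r) - (Q : ℂ) ^ r) - (c r : ℂ)) : (Q : ℂ) ∉ A := by
  intro hQA
  classical
  obtain ⟨n', rfl⟩ : ∃ n', n = n' + 1 := ⟨n - 1, by omega⟩
  -- the inverse of `(1 - Q X) ^ n` over `ℤ`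
  obtain ⟨L, hL⟩ : ∃ L : PowerSeries ℤ, L = 1 - PowerSeries.C (Q : ℤ) * PowerSeries.X := ⟨_, rfl⟩
  obtain ⟨U, hU⟩ : ∃ U : PowerSeries ℤ, L ^ (n' + 1) * U = 1 := by
    have h1 : IsUnit (L ^ (n' + 1)) := by
      refine IsUnit.pow _ (PowerSeries.isUnit_iff_constantCoeff.2 ?_)
      rw [hL]
      simp
    obtain ⟨u, hu⟩ := h1
    exact ⟨((u⁻¹ : (PowerSeries ℤ)ˣ) : PowerSeries ℤ), by rw [← hu]; exact Units.mul_inv u⟩
  obtain ⟨L2, hL2⟩ : ∃ L2 : PowerSeries ℤ, L2 = 1 - PowerSeries.C ((Q : ℤ) ^ 2) * PowerSeries.X := ⟨_, rfl⟩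
  obtain ⟨G, hG⟩ : ∃ G : PowerSeries ℤ, G = (V.reverse : PowerSeries ℤ) ^ n' * L2 ^ n' := ⟨_, rfl⟩
  -- the identity over `ℂ`
  obtain ⟨ι, hι⟩ : ∃ ι : PowerSeries ℤ →+* PowerSeries ℂ, ι = PowerSeries.map (Int.castRingHom ℂ) := ⟨_, rfl⟩
  have hιL : ι L = 1 - PowerSeries.C (Q : ℂ) * PowerSeries.X := by
    rw [hι, hL]
    simp
  have hιL2 : ι L2 = 1 - PowerSeries.C ((Q : ℂ) ^ 2) * PowerSeries.X := by
    rw [hι, hL2]
    simp
  obtain ⟨EC, hEC⟩ : ∃ EC : PowerSeries ℂ, EC = PowerSeries.map (algebraMap ℚ ℂ) E := ⟨_, rfl⟩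
  have g1 : Lg EC (fun r => (c r : ℂ)) := by
    have := lg_map (algebraMap ℚ ℂ) hE
    rw [← hEC] at this
    simpa using this
  have hP : ι (V.reverse : PowerSeries ℤ) =
      ((V.aroots ℂ).map fun α => 1 - PowerSeries.C α * PowerSeries.X).prod := by
    rw [hι, ← Polynomial.polynomial_map_coe, rev_aroots hV, coe_prod]
  have g2 := lg_prod A
  have g3 := lg_prod (V.aroots ℂ)
  rw [← hP] at g3
  have g4 := lg_lin (Q : ℂ)
  rw [← hιL] at g4
  have g5 := lg_lin ((Q : ℂ) ^ 2)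
  rw [← hιL2] at g5
  have key : (A.map fun α => 1 - PowerSeries.C α * PowerSeries.X).prod * ι L ^ n' =
      ι (V.reverse : PowerSeries ℤ) ^ n' * ι L2 ^ n' * EC := by
    refine lg_unique (lg_mul g2 (lg_pow g4 n')) (lg_mul (lg_mul (lg_pow g3 n') (lg_pow g5 n')) g1) ?_
    intro r hr
    have h1 := hA r hr
    rw [h1]
    push_cast
    ring
  obtain ⟨M, hM⟩ : ∃ M : ℂ[X], M = ((A.erase (Q : ℂ)).map fun ρ => 1 - C ρ * X).prod := ⟨_, rfl⟩
  have hMA : (A.map fun α => 1 - PowerSeries.C α * PowerSeries.X).prod = ι L * (M : PowerSeries ℂ) := by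
    conv_lhs => rw [← Multiset.cons_erase hQA]
    rw [Multiset.map_cons, Multiset.prod_cons, hM, coe_prod, hιL]
  have hW : ι (G * U) * EC = (M : PowerSeries ℂ) := by
    have h1 : ι L ^ (n' + 1) * ι U = 1 := by rw [← map_pow, ← map_mul, hU, map_one]
    calc ι (G * U) * EC = (ι (V.reverse : PowerSeries ℤ) ^ n' * ι L2 ^ n' * EC) * ι U := by
          rw [hG, map_mul, map_mul, map_pow, map_pow]
          ring
      _ = (ι L * (M : PowerSeries ℂ) * ι L ^ n') * ι U := by rw [← key, hMA]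
      _ = (M : PowerSeries ℂ) * (ι L ^ (n' + 1) * ι U) := by ring
      _ = _ := by rw [h1, mul_one]
  obtain ⟨D, hD⟩ : ∃ D : ℕ, D = M.natDegree + 1 := ⟨_, rfl⟩
  have hdv : ∀ m : ℕ, D ≤ m → (l : ℤ) ∣ PowerSeries.coeff m (G * U) := by
    intro m hm
    refine dvd_of_zero hl hE.1 hEl (G * U) m ?_
    have h1 : PowerSeries.coeff m (ι (G * U) * EC) = 0 := by
      rw [hW, Polynomial.coeff_coe]
      exact Polynomial.coeff_eq_zero_of_natDegree_lt (by omega)
    have h2 : ι (G * U) * EC = PowerSeries.map (algebraMap ℚ ℂ)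
        (PowerSeries.map (Int.castRingHom ℚ) (G * U) * E) := by
      rw [map_mul (PowerSeries.map (algebraMap ℚ ℂ)), ← hEC, hι]
      congr 1
    rw [h2, PowerSeries.coeff_map] at h1
    exact (map_eq_zero_iff _ (algebraMap ℚ ℂ).injective).1 h1
  -- reduction modulo `l`
  have : Fact l.Prime := ⟨hl⟩
  obtain ⟨κ, hκ⟩ : ∃ κ : PowerSeries ℤ →+* PowerSeries (ZMod l), κ = PowerSeries.map (Int.castRingHom (ZMod l)) :=
    ⟨_, rfl⟩
  obtain ⟨w, hw⟩ : ∃ w : (ZMod l)[X], w = PowerSeries.trunc D (κ (G * U)) := ⟨_, rfl⟩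
  have hwW : (w : PowerSeries (ZMod l)) = κ (G * U) := by
    ext j
    rw [Polynomial.coeff_coe, hw, PowerSeries.coeff_trunc]
    split_ifs with h1
    · rfl
    · rw [hκ, PowerSeries.coeff_map]
      have h2 := hdv j (by omega)
      rw [eq_intCast]
      exact ((ZMod.intCast_zmod_eq_zero_iff_dvd _ l).2 h2).symm
  have hQl : (Q : ZMod l) = 1 := by
    obtain ⟨t, ht⟩ := hQ
    have h1 : Q = l * t + 1 := by omega
    rw [h1]
    simp
  have hκL : κ L = ((1 - X : (ZMod l)[X]) : PowerSeries (ZMod l)) := by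
    rw [hκ, hL, Polynomial.coe_sub, Polynomial.coe_one, Polynomial.coe_X, map_sub, map_mul, map_one,
      PowerSeries.map_X, PowerSeries.map_C, eq_intCast, Int.cast_natCast, hQl, map_one, one_mul]
  have hκL2 : κ L2 = ((1 - X : (ZMod l)[X]) : PowerSeries (ZMod l)) := by
    rw [hκ, hL2, Polynomial.coe_sub, Polynomial.coe_one, Polynomial.coe_X, map_sub, map_mul, map_one,
      PowerSeries.map_X, PowerSeries.map_C, eq_intCast, Int.cast_pow, Int.cast_natCast, hQl, one_pow,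
      map_one, one_mul]
  have hκV : κ (V.reverse : PowerSeries ℤ) =
      ((V.reverse.map (Int.castRingHom (ZMod l)) : (ZMod l)[X]) : PowerSeries (ZMod l)) := by
    rw [hκ, ← Polynomial.polynomial_map_coe]
  have e1 : L ^ (n' + 1) * (G * U) = G := by
    calc L ^ (n' + 1) * (G * U) = G * (L ^ (n' + 1) * U) := by ring
      _ = G := by rw [hU, mul_one]
  have e2 : ((1 - X : (ZMod l)[X]) ^ (n' + 1) * w) =
      (V.reverse.map (Int.castRingHom (ZMod l))) ^ n' * (1 - X) ^ n' := by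
    apply Polynomial.coe_injective
    have h1 := congrArg κ e1
    rw [map_mul, map_pow, ← hwW, hG, map_mul, map_pow, map_pow, hκL, hκL2, hκV] at h1
    rw [Polynomial.coe_mul, Polynomial.coe_mul, Polynomial.coe_pow, Polynomial.coe_pow, Polynomial.coe_pow]
    exact h1
  have hX0 : (1 - X : (ZMod l)[X]) ≠ 0 := by
    intro h1
    have h2 := congrArg (Polynomial.eval 0) h1
    simp at h2
  have e3 : (1 - X : (ZMod l)[X]) * w = (V.reverse.map (Int.castRingHom (ZMod l))) ^ n' := by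
    refine mul_right_cancel₀ (pow_ne_zero n' hX0) ?_
    rw [← e2]
    ring
  have e4 := congrArg (Polynomial.eval 1) e3
  rw [Polynomial.eval_mul, Polynomial.eval_pow] at e4
  have e5 : (V.reverse.map (Int.castRingHom (ZMod l))).eval 1 = (h : ZMod l) := by
    have h1 := Polynomial.eval_intCast_map (Int.castRingHom (ZMod l)) V.reverse 1
    rw [Int.cast_one, show ((1 : ℤ) : ℤ) = 1 from rfl, Int.cast_id, eval_rev, hV1] at h1
    rw [h1]
    simp
  rw [e5] at e4
  have e6 : (h : ZMod l) ^ n' = 0 := by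
    rw [← e4]
    simp
  have e7 : (h : ZMod l) = 0 := eq_zero_of_pow_eq_zero e6
  exact hlh ((ZMod.natCast_eq_zero_iff h l).1 e7)

end H13.CZ
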