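import Pool.Agent.H13.CZ.Defs

/-!
# CZ-CNT: counting the solutions of `z ^ n = f(t, x)`

`k_r = {y : y ^ (q ^ r) = y}` has `q ^ r` elements (`X ^ (q ^ r) - X` is separable; compare `TA/PtA.lean`, `TA/PtB.lean`); it is
closed under the ring operations, in particular `ev f p ∈ k_r` if `p ∈ k_r ^ 2` (`ev f` has coefficients in `F`; Frobenius
`y ↦ y ^ (q ^ r)` is a ring homomorphism which fixes `F`). `q ^ r - 1` is divisible by `n` (`q ≡ 1` modulo `n`).
The solutions over `(t, x) ∈ k_r ^ 2`, `y = ev f (t, x)`: one (`z = 0`) if `y = 0`; `n` if `y ≠ 0` is `z₀ ^ n` with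
`z₀ ∈ k_r` (the `n`-th roots of unity of `k`: there are `n`, as `n` is prime to the characteristic, `n ∣ q - 1`, and they are
in `F ⊂ k_r`); none if `y` is not an `n`-th power in `k_r`. So with `u` the number of the second kind
`spt = npt + n u` and `npt + u + wpt = q ^ (2 r)`.
-/

set_option autoImplicit false

open Polynomial

noncomputable section

namespace H13.CZ

private lemma q_dvd {q n r : ℕ} (h : n ∣ q - 1) : n ∣ q ^ r - 1 := by
  refine h.trans ?_
  simpa using Nat.sub_dvd_pow_sub_pow q 1 r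

private lemma frob {F : Type} [Field F] [Finite F] (r : ℕ) :
    ∃ φ : AlgebraicClosure F →+* AlgebraicClosure F, ∀ y, φ y = y ^ (Nat.card F ^ r) := by
  haveI := Fintype.ofFinite F
  obtain ⟨p, hp⟩ := CharP.exists F
  obtain ⟨m, hpp, hm⟩ := FiniteField.card F p
  haveI : Fact p.Prime := ⟨hpp⟩
  haveI : CharP (AlgebraicClosure F) p := charP_of_injective_algebraMap
    (algebraMap F (AlgebraicClosure F)).injective p
  refine ⟨iterateFrobenius (AlgebraicClosure F) p (m * r), fun y => ?_⟩
  rw [iterateFrobenius_def, Nat.card_eq_fintype_card, hm, pow_mul]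

private lemma ev_mem {F : Type} [Field F] [Finite F] (f : F[X][X]) (r : ℕ)
    (p : AlgebraicClosure F × AlgebraicClosure F) (h1 : p.1 ^ Nat.card F ^ r = p.1)
    (h2 : p.2 ^ Nat.card F ^ r = p.2) :
    (H13.TA.ev f p) ^ Nat.card F ^ r = H13.TA.ev f p := by
  haveI := Fintype.ofFinite F
  obtain ⟨φ, hφ⟩ := frob (F := F) r
  rw [← hφ]
  unfold H13.TA.ev
  rw [Polynomial.hom_eval₂, hφ, h2]
  congr 1
  apply Polynomial.ringHom_ext
  · intro a
    simp only [RingHom.coe_comp, Function.comp_apply, AlgHom.coe_toRingHom, aeval_C]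
    rw [hφ, ← map_pow, Nat.card_eq_fintype_card, FiniteField.pow_card_pow]
  · simp only [RingHom.coe_comp, Function.comp_apply, AlgHom.coe_toRingHom, aeval_X]
    rw [hφ, h1]

private lemma Q_pos {F : Type} [Field F] [Finite F] {r : ℕ} (hr : r ≠ 0) : 1 < Nat.card F ^ r :=
  Nat.one_lt_pow hr Finite.one_lt_card

private lemma Q_zero {F : Type} [Field F] [Finite F] {r : ℕ} (hr : r ≠ 0) :
    ((Nat.card F ^ r : ℕ) : AlgebraicClosure F) = 0 := by
  haveI := Fintype.ofFinite F
  have h : ((Nat.card F : ℕ) : F) = 0 := by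
    rw [Nat.card_eq_fintype_card]
    exact FiniteField.cast_card_eq_zero F
  have h2 : ((Nat.card F : ℕ) : AlgebraicClosure F) = 0 := by
    rw [← map_natCast (algebraMap F (AlgebraicClosure F)), h, map_zero]
  rw [Nat.cast_pow, h2, zero_pow hr]

open scoped Classical in
/-- the finset of the elements of the field with `q ^ r` elements -/
private def kr (F : Type) [Field F] (r : ℕ) : Finset (AlgebraicClosure F) :=
  ((X ^ (Nat.card F ^ r) - X : (AlgebraicClosure F)[X]).roots).toFinset

open scoped Classical in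
private lemma mem_kr {F : Type} [Field F] [Finite F] {r : ℕ} (hr : r ≠ 0)
    (y : AlgebraicClosure F) : y ∈ kr F r ↔ y ^ Nat.card F ^ r = y := by
  unfold kr
  rw [Multiset.mem_toFinset, mem_roots (FiniteField.X_pow_card_sub_X_ne_zero _ (Q_pos hr))]
  rw [IsRoot.def, eval_sub, eval_pow, eval_X, sub_eq_zero]

open scoped Classical in
private lemma card_kr {F : Type} [Field F] [Finite F] {r : ℕ} (hr : r ≠ 0) :
    (kr F r).card = Nat.card F ^ r := by
  have hsep : (X ^ (Nat.card F ^ r) - X : (AlgebraicClosure F)[X]).Separable := by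
    rw [separable_def]
    refine ⟨0, -1, ?_⟩
    rw [derivative_sub, derivative_X_pow, derivative_X]
    have : (C ((Nat.card F ^ r : ℕ) : AlgebraicClosure F)) = 0 := by
      rw [Q_zero hr, C_0]
    rw [this]
    ring
  have hnd := nodup_roots hsep
  unfold kr
  rw [Multiset.toFinset_card_of_nodup hnd]
  rw [← (IsAlgClosed.splits (X ^ (Nat.card F ^ r) - X : (AlgebraicClosure F)[X])).natDegree_eq_card_roots]
  exact FiniteField.X_pow_card_sub_X_natDegree_eq _ (Q_pos hr)

/-- the number of solutions over one point -/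
private lemma card_fib {F : Type} [Field F] [Finite F] {n r : ℕ} (hn : n ≠ 0) (hr : r ≠ 0)
    (hd : n ∣ Nat.card F - 1) (y z₀ : AlgebraicClosure F) (hy : y ≠ 0)
    (hz₀ : z₀ ^ Nat.card F ^ r = z₀) (hzy : z₀ ^ n = y) (s : Finset (AlgebraicClosure F))
    (hs : ∀ z, z ∈ s ↔ z ^ Nat.card F ^ r = z ∧ y = z ^ n) : s.card = n := by
  classical
  have hz0 : z₀ ≠ 0 := by
    rintro rfl
    rw [zero_pow hn] at hzy
    exact hy hzy.symm
  have hQ := Q_pos (F := F) hr
  have hnq : ((n : ℕ) : AlgebraicClosure F) ≠ 0 := by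
    intro h0
    obtain ⟨m, hm⟩ := q_dvd (r := r) hd
    have h1 : ((Nat.card F ^ r : ℕ) : AlgebraicClosure F) = 1 := by
      have h2 : Nat.card F ^ r = n * m + 1 := by omega
      rw [h2, Nat.cast_add, Nat.cast_mul, h0]
      simp
    rw [Q_zero hr] at h1
    exact zero_ne_one h1
  have hsep : (X ^ n - C y : (AlgebraicClosure F)[X]).Separable :=
    separable_X_pow_sub_C y hnq hy
  have hnd := nodup_roots hsep
  have hcard : (X ^ n - C y : (AlgebraicClosure F)[X]).roots.toFinset.card = n := by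
    rw [Multiset.toFinset_card_of_nodup hnd,
      ← (IsAlgClosed.splits (X ^ n - C y : (AlgebraicClosure F)[X])).natDegree_eq_card_roots]
    exact natDegree_X_pow_sub_C
  have hne : (X ^ n - C y : (AlgebraicClosure F)[X]) ≠ 0 := X_pow_sub_C_ne_zero (Nat.pos_of_ne_zero hn) y
  rw [← hcard]
  congr 1
  ext z
  rw [hs, Multiset.mem_toFinset, mem_roots hne, IsRoot.def, eval_sub, eval_pow, eval_X, eval_C,
    sub_eq_zero]
  constructor
  · rintro ⟨_, h⟩
    exact h.symm
  · intro h
    refine ⟨?_, h.symm⟩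
    have hzne : z ≠ 0 := by
      rintro rfl
      rw [zero_pow hn] at h
      exact hy h.symm
    obtain ⟨m, hm⟩ := q_dvd (r := r) hd
    have h2 : Nat.card F ^ r = n * m + 1 := by omega
    rw [h2, pow_succ, pow_mul] at hz₀ ⊢
    rw [hzy] at hz₀
    rw [h]
    have : y ^ m = 1 := by
      have h3 : y ^ m * z₀ = 1 * z₀ := by rw [hz₀, one_mul]
      exact mul_right_cancel₀ hz0 h3
    rw [this, one_mul]

theorem cnt {F : Type} [Field F] [Finite F] (f : F[X][X]) (n r : ℕ) (hn : n ≠ 0) (hr : r ≠ 0)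
    (hd : n ∣ Nat.card F - 1) : (spt f n r : ℤ) = n * (Nat.card F : ℤ) ^ (2 * r) -
      ((n : ℤ) - 1) * H13.TA.npt f r - n * wpt f n r := by
  classical
  set P : Finset (AlgebraicClosure F × AlgebraicClosure F) := kr F r ×ˢ kr F r with hP
  have hPm : ∀ p, p ∈ P ↔ p.1 ^ Nat.card F ^ r = p.1 ∧ p.2 ^ Nat.card F ^ r = p.2 := by
    intro p
    rw [hP, Finset.mem_product, mem_kr hr, mem_kr hr]
  have hPc : P.card = (Nat.card F ^ r) * (Nat.card F ^ r) := by
    rw [hP, Finset.card_product, card_kr hr]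
  set Z := P.filter (fun p => H13.TA.ev f p = 0) with hZ
  set N := P.filter (fun p => ¬ H13.TA.ev f p = 0) with hN
  set W := N.filter (fun p => ¬ ∃ z : AlgebraicClosure F, z ^ Nat.card F ^ r = z ∧ z ^ n = H13.TA.ev f p) with hW
  set U := N.filter (fun p => ∃ z : AlgebraicClosure F, z ^ Nat.card F ^ r = z ∧ z ^ n = H13.TA.ev f p) with hU
  have e1 : Z.card + N.card = P.card := Finset.card_filter_add_card_filter_not _
  have e2 : U.card + W.card = N.card := Finset.card_filter_add_card_filter_not _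
  have hnpt : H13.TA.npt f r = Z.card := by
    unfold H13.TA.npt
    apply Nat.subtype_card
    intro p
    rw [hZ, Finset.mem_filter, hPm]
    tauto
  have hwpt : wpt f n r = W.card := by
    unfold wpt
    apply Nat.subtype_card
    intro p
    rw [hW, Finset.mem_filter, hN, Finset.mem_filter, hPm]
    tauto
  have hspt : spt f n r = ((P ×ˢ kr F r).filter
      (fun x => H13.TA.ev f x.1 = x.2 ^ n)).card := by
    unfold spt
    apply Nat.subtype_card
    intro x
    rw [Finset.mem_filter, Finset.mem_product, hPm, mem_kr hr]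
    tauto
  have hsum : spt f n r = ∑ p ∈ P, ((kr F r).filter (fun z => H13.TA.ev f p = z ^ n)).card := by
    rw [hspt, Finset.card_filter, Finset.sum_product]
    refine Finset.sum_congr rfl fun p _ => ?_
    rw [Finset.card_filter]
  have hfib : ∀ p ∈ P, ((kr F r).filter (fun z => H13.TA.ev f p = z ^ n)).card =
      (if H13.TA.ev f p = 0 then 1 else 0) +
        n * (if (¬ H13.TA.ev f p = 0) ∧ ∃ z : AlgebraicClosure F, z ^ Nat.card F ^ r = z ∧ z ^ n = H13.TA.ev f p
          then 1 else 0) := by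
    intro p hp
    by_cases h0 : H13.TA.ev f p = 0
    · rw [if_pos h0, if_neg (by tauto), mul_zero, add_zero, Finset.card_eq_one]
      refine ⟨0, ?_⟩
      ext z
      rw [Finset.mem_filter, Finset.mem_singleton, mem_kr hr, h0]
      constructor
      · rintro ⟨_, h⟩
        exact pow_eq_zero_iff hn |>.1 h.symm
      · rintro rfl
        exact ⟨zero_pow (by have := Q_pos (F := F) hr; omega), (zero_pow hn).symm⟩
    · rw [if_neg h0, zero_add]
      by_cases h1 : ∃ z : AlgebraicClosure F, z ^ Nat.card F ^ r = z ∧ z ^ n = H13.TA.ev f p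
      · rw [if_pos ⟨h0, h1⟩, mul_one]
        obtain ⟨z₀, hz1, hz2⟩ := h1
        refine card_fib hn hr hd (H13.TA.ev f p) z₀ h0 hz1 hz2 _ fun z => ?_
        rw [Finset.mem_filter, mem_kr hr]
      · rw [if_neg (fun h => h1 h.2), mul_zero, Finset.card_eq_zero, Finset.filter_eq_empty_iff]
        intro z hz h
        exact h1 ⟨z, (mem_kr hr z).1 hz, h.symm⟩
  have htot : spt f n r = Z.card + n * U.card := by
    rw [hsum, Finset.sum_congr rfl hfib, Finset.sum_add_distrib, ← Finset.mul_sum,
      ← Finset.card_filter, ← Finset.card_filter, hZ, hU, hN, Finset.filter_filter]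
  have hq : (Nat.card F : ℤ) ^ (2 * r) = (Z.card : ℤ) + (U.card + W.card) := by
    have h3 : Nat.card F ^ r * Nat.card F ^ r = Z.card + (U.card + W.card) := by
      rw [e2, e1, hPc]
    have h4 : (Nat.card F : ℤ) ^ (2 * r) = ((Nat.card F ^ r * Nat.card F ^ r : ℕ) : ℤ) := by
      push_cast
      rw [two_mul, pow_add]
    rw [h4, h3]
    push_cast
    ring
  rw [htot, hnpt, hwpt, hq]
  push_cast
  ring

end H13.CZ
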