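import Pool.Agent.H13.CB.Defs

/-!
# The zeta function of the surface `z ^ n = f(t, x)`, definitions

* `spt f n r` : number of solutions of `z ^ n = f(t, x)` in the field with `q ^ r` elements;
* `wpt f n r` : number of the `(t, x)` in this field with `f(t, x) ≠ 0` not an `n`-th power in it;
* `Lg B b` : the power series `B` has constant term `1` and `X B' = (∑_(r ≥ 1) b r X ^ r) B`, that is
  `B = exp (∑ b r X ^ r / r)`.
-/

set_option autoImplicit false

open Polynomial

noncomputable section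

namespace H13.CZ

/-- number of solutions of `z ^ n = f(t, x)` -/
def spt {F : Type} [Field F] (f : F[X][X]) (n r : ℕ) : ℕ :=
  Nat.card {p : (AlgebraicClosure F × AlgebraicClosure F) × AlgebraicClosure F //
    H13.TA.ev f p.1 = p.2 ^ n ∧ p.1.1 ^ Nat.card F ^ r = p.1.1 ∧ p.1.2 ^ Nat.card F ^ r = p.1.2 ∧
      p.2 ^ Nat.card F ^ r = p.2}

/-- number of the points where `f` is not an `n`-th power -/
def wpt {F : Type} [Field F] (f : F[X][X]) (n r : ℕ) : ℕ :=
  Nat.card {p : AlgebraicClosure F × AlgebraicClosure F //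
    (p.1 ^ Nat.card F ^ r = p.1 ∧ p.2 ^ Nat.card F ^ r = p.2) ∧ H13.TA.ev f p ≠ 0 ∧
      ¬ ∃ z : AlgebraicClosure F, z ^ Nat.card F ^ r = z ∧ z ^ n = H13.TA.ev f p}

/-- `B = exp (∑ b r X ^ r / r)` -/
def Lg {R : Type} [CommRing R] (B : PowerSeries R) (b : ℕ → R) : Prop :=
  PowerSeries.coeff 0 B = 1 ∧ ∀ m : ℕ, (m : R) * PowerSeries.coeff m B =
    ∑ r ∈ Finset.Icc 1 m, b r * PowerSeries.coeff (m - r) B

end H13.CZ
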