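import Pool.Agent.H13.CZ.Defs

/-!
# CZ-EXL: the exponential of a series divisible by `l`

`g = ∑_(r ≥ 1) (c r / r) X ^ r ∈ ℚ[[X]]`; by `hc` with `j` the exponent of `l` in `r` all `c r / r` are in `l Z_(l)`, `Z_(l)` the
ring of the rational numbers with denominator prime to `l`. `E = exp(g)`: the coefficient of `X ^ m` in `E` is
`∑_(k ≤ m) (coefficient of X ^ m in g ^ k) / k!` (`g` has no constant term; or `PowerSeries.exp` and `PowerSeries.subst`).
`X E' = X g' E` (derivative of `g ^ k / k!`), which is `Lg`. `l ^ k / k!` is in `l Z_(l)` for `k ≥ 1`: the exponent of `l` in `k!` is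
at most `k - 1` (`Nat.Prime.multiplicity_factorial` / `sub_one_mul_padicValNat_factorial`, Legendre:
`(l - 1) v(k!) = k - digit sum ≤ k - 1`). `g ^ k ∈ l ^ k Z_(l)[[X]]`, so all coefficients of `E` with `m ≥ 1` are in `l Z_(l)`.
(`a`, `b` in the statement: `b` prime to `l`; `Z_(l)` is closed under sums and products.)
-/

set_option autoImplicit false

open Polynomial

noncomputable section

namespace H13.CZ

/-- the rational numbers with denominator prime to `l` -/
private def ZL (l : ℕ) (hl : l.Prime) : Subring ℚ where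
  carrier := {x | ∃ a b : ℤ, ¬ (l : ℤ) ∣ b ∧ (b : ℚ) * x = a}
  mul_mem' := by
    rintro x y ⟨a, b, hb, h1⟩ ⟨a', b', hb', h2⟩
    refine ⟨a * a', b * b', ?_, ?_⟩
    · intro h
      rcases (Nat.prime_iff_prime_int.1 hl).dvd_or_dvd h with h | h
      · exact hb h
      · exact hb' h
    · push_cast
      rw [← h1, ← h2]
      ring
  one_mem' := by
    refine ⟨1, 1, ?_, by simp⟩
    intro h
    exact (Nat.prime_iff_prime_int.1 hl).not_isUnit (isUnit_of_dvd_one h)
  add_mem' := by
    rintro x y ⟨a, b, hb, h1⟩ ⟨a', b', hb', h2⟩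
    refine ⟨a * b' + a' * b, b * b', ?_, ?_⟩
    · intro h
      rcases (Nat.prime_iff_prime_int.1 hl).dvd_or_dvd h with h | h
      · exact hb h
      · exact hb' h
    · push_cast
      rw [← h1, ← h2]
      ring
  zero_mem' := by
    refine ⟨0, 1, ?_, by simp⟩
    intro h
    exact (Nat.prime_iff_prime_int.1 hl).not_isUnit (isUnit_of_dvd_one h)
  neg_mem' := by
    rintro x ⟨a, b, hb, h1⟩
    refine ⟨-a, b, hb, ?_⟩
    push_cast
    rw [← h1]
    ring

private lemma mem_ZL {l : ℕ} {hl : l.Prime} {x : ℚ} :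
    x ∈ ZL l hl ↔ ∃ a b : ℤ, ¬ (l : ℤ) ∣ b ∧ (b : ℚ) * x = a := Iff.rfl

/-- `c r / r` is `l` times an element of `ZL` -/
private lemma div_r (l : ℕ) (hl : l.Prime) (c : ℕ → ℤ)
    (hc : ∀ r j : ℕ, r ≠ 0 → l ^ j ∣ r → (l : ℤ) ^ (j + 1) ∣ c r) (r : ℕ) (hr : r ≠ 0) :
    ∃ y : ℚ, y ∈ ZL l hl ∧ (l : ℚ) * y * r = c r := by
  obtain ⟨j, u, hu, hju⟩ := Nat.exists_eq_pow_mul_and_not_dvd hr l hl.ne_one
  obtain ⟨d, hd⟩ := hc r j hr ⟨u, hju⟩
  have hu0 : (u : ℚ) ≠ 0 := by
    have : u ≠ 0 := by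
      rintro rfl
      exact hu (dvd_zero _)
    exact_mod_cast this
  refine ⟨d / u, ⟨d, u, ?_, ?_⟩, ?_⟩
  · intro h
    exact hu (by exact_mod_cast h)
  · push_cast
    field_simp
  · rw [hd, hju]
    push_cast
    field_simp
    ring

/-- `l ^ (k - 1) / k!` is in `ZL` -/
private lemma fac (l : ℕ) (hl : l.Prime) (k : ℕ) :
    ((l : ℚ) ^ k / ((k + 1).factorial : ℚ)) ∈ ZL l hl := by
  have : Fact l.Prime := ⟨hl⟩
  have hk : (k + 1).factorial ≠ 0 := Nat.factorial_ne_zero _
  obtain ⟨v, u, hu, hvu⟩ := Nat.exists_eq_pow_mul_and_not_dvd hk l hl.ne_one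
  have hv : v ≤ k := by
    have h1 : padicValNat l (k + 1).factorial < k + 1 :=
      padicValNat_factorial_lt_of_ne_zero l (Nat.succ_ne_zero k)
    have h2 : v ≤ padicValNat l (k + 1).factorial :=
      (padicValNat_dvd_iff_le hk).1 ⟨u, hvu⟩
    omega
  have hu0 : (u : ℚ) ≠ 0 := by
    have : u ≠ 0 := by
      rintro rfl
      exact hu (dvd_zero _)
    exact_mod_cast this
  have hl0 : (l : ℚ) ≠ 0 := by exact_mod_cast hl.ne_zero
  refine ⟨(l : ℤ) ^ (k - v), u, ?_, ?_⟩
  · intro h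
    exact hu (by exact_mod_cast h)
  · rw [hvu]
    push_cast
    have : (l : ℚ) ^ k = (l : ℚ) ^ v * (l : ℚ) ^ (k - v) := by
      rw [← pow_add]
      congr 1
      omega
    rw [this]
    field_simp

/-- the coefficients of the exponential -/
private def ex (g : PowerSeries ℚ) (m : ℕ) : ℚ :=
  ∑ k ∈ Finset.range (m + 1), PowerSeries.coeff m (g ^ k) / (k.factorial : ℚ)

private lemma coeff_low (g : PowerSeries ℚ) (hg : PowerSeries.coeff 0 g = 0) (k m : ℕ)
    (hm : m < k) : PowerSeries.coeff m (g ^ k) = 0 := by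
  have h1 : (PowerSeries.X : PowerSeries ℚ) ∣ g := by
    rw [PowerSeries.X_dvd_iff, ← PowerSeries.coeff_zero_eq_constantCoeff_apply]
    exact hg
  exact (PowerSeries.X_pow_dvd_iff.1 (pow_dvd_pow_of_dvd h1 k)) m hm

private lemma ex_long (g : PowerSeries ℚ) (hg : PowerSeries.coeff 0 g = 0) (m n : ℕ)
    (hmn : m ≤ n) :
    ∑ k ∈ Finset.range (n + 1), PowerSeries.coeff m (g ^ k) / (k.factorial : ℚ) = ex g m := by
  unfold ex
  symm
  apply Finset.sum_subset
  · intro k hk
    rw [Finset.mem_range] at hk ⊢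
    omega
  · intro k _ hk
    rw [Finset.mem_range] at hk
    rw [coeff_low g hg k m (by omega)]
    simp

private lemma ex_rec (g : PowerSeries ℚ) (hg : PowerSeries.coeff 0 g = 0) (n : ℕ) :
    ((n : ℚ) + 1) * ex g (n + 1) =
      ∑ ab ∈ Finset.HasAntidiagonal.antidiagonal n, (((ab.2 : ℚ) + 1) * PowerSeries.coeff (ab.2 + 1) g) * ex g ab.1 := by
  have hk : ∀ k : ℕ, ((n : ℚ) + 1) * (PowerSeries.coeff (n + 1) (g ^ (k + 1)) /
      ((k + 1).factorial : ℚ)) = ∑ ab ∈ Finset.HasAntidiagonal.antidiagonal n,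
        (((ab.2 : ℚ) + 1) * PowerSeries.coeff (ab.2 + 1) g) *
          (PowerSeries.coeff ab.1 (g ^ k) / (k.factorial : ℚ)) := by
    intro k
    have h1 : PowerSeries.coeff (n + 1) (g ^ (k + 1)) * ((n : ℚ) + 1) =
        PowerSeries.coeff n (PowerSeries.derivative ℚ (g ^ (k + 1))) := by
      rw [PowerSeries.coeff_derivative]
    have h2 : PowerSeries.derivative ℚ (g ^ (k + 1)) =
        PowerSeries.C ((k : ℚ) + 1) * (g ^ k * PowerSeries.derivative ℚ g) := by
      rw [PowerSeries.derivative_pow]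
      simp only [Nat.add_sub_cancel]
      push_cast
      rw [map_add, map_one, map_natCast]
      ring
    rw [h2, PowerSeries.coeff_C_mul, PowerSeries.coeff_mul] at h1
    have hf : ((k + 1).factorial : ℚ) = ((k : ℚ) + 1) * (k.factorial : ℚ) := by
      rw [Nat.factorial_succ]
      push_cast
      ring
    have hk0 : ((k : ℚ) + 1) ≠ 0 := by positivity
    have hf0 : (k.factorial : ℚ) ≠ 0 := by exact_mod_cast Nat.factorial_ne_zero k
    have h3 : ((n : ℚ) + 1) * (PowerSeries.coeff (n + 1) (g ^ (k + 1)) /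
        ((k + 1).factorial : ℚ)) = (∑ ab ∈ Finset.HasAntidiagonal.antidiagonal n,
        PowerSeries.coeff ab.1 (g ^ k) * PowerSeries.coeff ab.2 (PowerSeries.derivative ℚ g)) /
          (k.factorial : ℚ) := by
      rw [hf]
      field_simp
      rw [mul_comm ((n : ℚ) + 1), h1]
      try ring
    rw [h3, Finset.sum_div]
    apply Finset.sum_congr rfl
    intro ab _
    rw [PowerSeries.coeff_derivative]
    ring
  unfold ex
  rw [Finset.sum_range_succ']
  have h0 : PowerSeries.coeff (n + 1) (g ^ 0) / ((Nat.factorial 0 : ℕ) : ℚ) = 0 := by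
    rw [pow_zero, PowerSeries.coeff_one]
    simp
  rw [h0, add_zero, Finset.mul_sum, Finset.sum_congr rfl (fun k _ => hk k), Finset.sum_comm]
  apply Finset.sum_congr rfl
  intro ab hab
  rw [← Finset.mul_sum]
  rw [Finset.HasAntidiagonal.mem_antidiagonal] at hab
  rw [ex_long g hg ab.1 n (by omega)]
  rfl

theorem exl (l : ℕ) (hl : l.Prime) (c : ℕ → ℤ)
    (hc : ∀ r j : ℕ, r ≠ 0 → l ^ j ∣ r → (l : ℤ) ^ (j + 1) ∣ c r) :
    ∃ E : PowerSeries ℚ, Lg E (fun r => (c r : ℚ)) ∧ ∀ m : ℕ, m ≠ 0 → ∃ a b : ℤ,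
      ¬ (l : ℤ) ∣ b ∧ (b : ℚ) * PowerSeries.coeff m E = l * a := by
  classical
  have hch : ∀ r : ℕ, ∃ y : ZL l hl, (r ≠ 0 → (l : ℚ) * (y : ℚ) * r = c r) ∧
      (r = 0 → y = 0) := by
    intro r
    by_cases hr : r = 0
    · exact ⟨0, fun h => absurd hr h, fun _ => rfl⟩
    · obtain ⟨y, hy, h⟩ := div_r l hl c hc r hr
      exact ⟨⟨y, hy⟩, fun _ => h, fun h => absurd h hr⟩
  choose y hy1 hy0 using hch
  set h0 : PowerSeries (ZL l hl) := PowerSeries.mk y with hh0
  set g : PowerSeries ℚ := PowerSeries.C (l : ℚ) * PowerSeries.map (ZL l hl).subtype h0 with hgd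
  have hgc : ∀ r : ℕ, PowerSeries.coeff r g = (l : ℚ) * (y r : ℚ) := by
    intro r
    rw [hgd, PowerSeries.coeff_C_mul, PowerSeries.coeff_map, hh0, PowerSeries.coeff_mk]
    rfl
  have hg0 : PowerSeries.coeff 0 g = 0 := by
    rw [hgc, hy0 0 rfl]
    simp
  have hgk : ∀ k m : ℕ, PowerSeries.coeff m (g ^ k) =
      (l : ℚ) ^ k * ((PowerSeries.coeff m (h0 ^ k) : ZL l hl) : ℚ) := by
    intro k m
    rw [hgd, mul_pow, ← map_pow, ← map_pow, PowerSeries.coeff_C_mul, PowerSeries.coeff_map]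
    rfl
  refine ⟨PowerSeries.mk (ex g), ⟨?_, ?_⟩, ?_⟩
  · rw [PowerSeries.coeff_mk]
    unfold ex
    simp
  · intro m
    rcases m with _ | n
    · simp
    · rw [PowerSeries.coeff_mk]
      push_cast
      rw [ex_rec g hg0 n]
      have h1 : ∑ r ∈ Finset.Icc 1 (n + 1), (c r : ℚ) *
          PowerSeries.coeff (n + 1 - r) (PowerSeries.mk (ex g)) =
          ∑ i ∈ Finset.range (n + 1), (c (i + 1) : ℚ) * ex g (n - i) := by
        refine Finset.sum_nbij' (fun r => r - 1) (fun i => i + 1) ?_ ?_ ?_ ?_ ?_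
        · intro r hr
          rw [Finset.mem_Icc] at hr
          rw [Finset.mem_range]
          omega
        · intro i hi
          rw [Finset.mem_range] at hi
          rw [Finset.mem_Icc]
          omega
        · intro r hr
          rw [Finset.mem_Icc] at hr
          show r - 1 + 1 = r
          omega
        · intro i _
          show i + 1 - 1 = i
          omega
        · intro r hr
          rw [Finset.mem_Icc] at hr
          rw [PowerSeries.coeff_mk]
          have e1 : r - 1 + 1 = r := by omega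
          have e2 : n + 1 - r = n - (r - 1) := by omega
          rw [e1, e2]
      rw [h1, ← Finset.Nat.sum_antidiagonal_swap,
        Finset.Nat.sum_antidiagonal_eq_sum_range_succ_mk]
      apply Finset.sum_congr rfl
      intro i _
      have h2 := hy1 (i + 1) (Nat.succ_ne_zero i)
      rw [← h2]
      show (((i : ℕ) : ℚ) + 1) * PowerSeries.coeff (i + 1) g * ex g (n - i) = _
      rw [hgc]
      push_cast
      ring
  · intro m hm
    obtain ⟨m, rfl⟩ := Nat.exists_eq_succ_of_ne_zero hm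
    have hz : ∃ z : ℚ, z ∈ ZL l hl ∧ ex g (m + 1) = (l : ℚ) * z := by
      refine ⟨∑ k ∈ Finset.range (m + 1), ((l : ℚ) ^ k / ((k + 1).factorial : ℚ)) *
        ((PowerSeries.coeff (m + 1) (h0 ^ (k + 1)) : ZL l hl) : ℚ), ?_, ?_⟩
      · apply Subring.sum_mem
        intro k _
        exact Subring.mul_mem _ (fac l hl k) (Subtype.property _)
      · unfold ex
        rw [Finset.sum_range_succ']
        have h00 : PowerSeries.coeff (m + 1) (g ^ 0) / ((Nat.factorial 0 : ℕ) : ℚ) = 0 := by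
          rw [pow_zero, PowerSeries.coeff_one]
          simp
        rw [h00, add_zero, Finset.mul_sum]
        apply Finset.sum_congr rfl
        intro k _
        rw [hgk]
        ring
    obtain ⟨z, ⟨a, b, hb, hab⟩, hz⟩ := hz
    refine ⟨a, b, hb, ?_⟩
    rw [PowerSeries.coeff_mk, hz, ← hab]
    ring

end H13.CZ
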