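import Pool.Agent.H13.CZ.Defs

/-!
# CZ-LGM: power series and logarithmic derivatives

`Lg B b` says: constant term `1` and `θ B = β B` with `θ = X d/dX` (coefficient of `X ^ m` in `θ B` is `m B_m`) and
`β = ∑_(r ≥ 1) b r X ^ r` (`PowerSeries.mk`, `PowerSeries.coeff_mul`). `lg_mul`: `θ (B C) = θ B C + B θ C = (β + γ) B C`
(`PowerSeries.derivative`, Leibniz). `lg_one`: `B = 1`, `b = 0`. `lg_pow`: induction. `lg_unique`: induction on the
coefficient, `m ≠ 0` can be cancelled. `lg_lin`: `θ (1 - a X) = - a X` and
`-(∑_(r ≥ 1) a ^ r X ^ r)(1 - a X) = - a X`. `lg_prod`: induction over the multiset. `lg_map`: apply `φ`.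
-/

set_option autoImplicit false

open Polynomial

noncomputable section

namespace H13.CZ

variable {R : Type} [CommRing R]

private def gen (b : ℕ → R) : PowerSeries R := PowerSeries.mk (fun r => if r = 0 then 0 else b r)

private theorem coeff_gen_mul (b : ℕ → R) (B : PowerSeries R) (m : ℕ) :
    PowerSeries.coeff m (gen b * B) = ∑ r ∈ Finset.Icc 1 m, b r * PowerSeries.coeff (m - r) B := by
  rw [PowerSeries.coeff_mul, Finset.Nat.sum_antidiagonal_eq_sum_range_succ_mk]
  have h : Finset.range m.succ = insert 0 (Finset.Icc 1 m) := by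
    ext x
    simp only [Finset.mem_range, Finset.mem_insert, Finset.mem_Icc]
    omega
  rw [h, Finset.sum_insert (by simp)]
  simp only [gen, PowerSeries.coeff_mk, if_true, zero_mul, zero_add]
  refine Finset.sum_congr rfl (fun r hr => ?_)
  rw [if_neg]
  rw [Finset.mem_Icc] at hr
  omega

private theorem coeff_theta (B : PowerSeries R) (m : ℕ) :
    PowerSeries.coeff m (PowerSeries.X * PowerSeries.derivative R B) =
      (m : R) * PowerSeries.coeff m B := by
  cases m with
  | zero => simp
  | succ m =>
    rw [PowerSeries.coeff_succ_X_mul, PowerSeries.coeff_derivative, mul_comm]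
    push_cast
    ring

private theorem lg_iff (B : PowerSeries R) (b : ℕ → R) :
    Lg B b ↔ PowerSeries.coeff 0 B = 1 ∧
      PowerSeries.X * PowerSeries.derivative R B = gen b * B := by
  unfold Lg
  refine and_congr_right (fun _ => ?_)
  constructor
  · intro h
    ext m
    rw [coeff_theta, coeff_gen_mul, h m]
  · intro h m
    rw [← coeff_theta, h, coeff_gen_mul]

theorem lg_one : Lg (1 : PowerSeries R) (fun _ => 0) := by
  refine ⟨by simp, fun m => ?_⟩
  simp only [zero_mul, Finset.sum_const_zero]
  rw [PowerSeries.coeff_one]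
  by_cases h : m = 0
  · simp [h]
  · simp [h]

theorem lg_mul {B C : PowerSeries R} {b c : ℕ → R} (hB : Lg B b) (hC : Lg C c) :
    Lg (B * C) (fun r => b r + c r) := by
  rw [lg_iff] at hB hC ⊢
  obtain ⟨h1, h2⟩ := hB
  obtain ⟨h3, h4⟩ := hC
  refine ⟨?_, ?_⟩
  · rw [PowerSeries.coeff_zero_eq_constantCoeff_apply] at h1 h3 ⊢
    rw [map_mul, h1, h3, mul_one]
  · have e : gen (fun r => b r + c r) = gen b + gen c := by
      ext m
      simp only [gen, PowerSeries.coeff_mk, map_add]
      split <;> simp
    rw [Derivation.leibniz, e, smul_eq_mul, smul_eq_mul]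
    linear_combination C * h2 + B * h4

theorem lg_pow {B : PowerSeries R} {b : ℕ → R} (hB : Lg B b) (n : ℕ) :
    Lg (B ^ n) (fun r => n * b r) := by
  induction n with
  | zero =>
    simpa using (lg_one (R := R))
  | succ n ih =>
    rw [pow_succ]
    have h := lg_mul ih hB
    have e : (fun r => ((n + 1 : ℕ) : R) * b r) = fun r => (n : R) * b r + b r := by
      funext r
      push_cast
      ring
    rw [e]
    exact h

theorem lg_unique [IsDomain R] [CharZero R] {B C : PowerSeries R} {b c : ℕ → R} (hB : Lg B b)
    (hC : Lg C c) (h : ∀ r, r ≠ 0 → b r = c r) : B = C := by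
  obtain ⟨h1, h2⟩ := hB
  obtain ⟨h3, h4⟩ := hC
  ext m
  induction m using Nat.strong_induction_on with
  | _ m ih =>
    by_cases hm : m = 0
    · rw [hm, h1, h3]
    · have hm' : (m : R) ≠ 0 := Nat.cast_ne_zero.mpr hm
      apply mul_left_cancel₀ hm'
      rw [h2, h4]
      refine Finset.sum_congr rfl (fun r hr => ?_)
      rw [Finset.mem_Icc] at hr
      rw [h r (by omega), ih (m - r) (by omega)]

theorem lg_lin (a : R) : Lg (1 - PowerSeries.C a * PowerSeries.X) (fun r => -a ^ r) := by
  rw [lg_iff]
  refine ⟨by simp, ?_⟩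
  have e : gen (fun r => -a ^ r) * (1 - PowerSeries.C a * PowerSeries.X) =
      -(PowerSeries.C a * PowerSeries.X) := by
    ext m
    rw [mul_sub, mul_one, ← mul_assoc]
    cases m with
    | zero =>
      simp [gen]
    | succ m =>
      rw [map_sub, map_neg, PowerSeries.coeff_succ_mul_X, mul_comm (gen _) (PowerSeries.C a),
        PowerSeries.coeff_C_mul, PowerSeries.coeff_succ_mul_X]
      simp only [gen, PowerSeries.coeff_mk, PowerSeries.coeff_C]
      by_cases h : m = 0
      · subst h
        simp
      · simp only [h, if_false]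
        rw [if_neg (Nat.succ_ne_zero m)]
        ring
  rw [e]
  simp only [map_sub, map_one, Derivation.leibniz, PowerSeries.derivative_C,
    PowerSeries.derivative_X, smul_eq_mul, Derivation.map_one_eq_zero]
  ring

theorem lg_prod (A : Multiset R) :
    Lg ((A.map fun α => 1 - PowerSeries.C α * PowerSeries.X).prod)
      (fun r => -(A.map fun α => α ^ r).sum) := by
  induction A using Multiset.induction_on with
  | empty =>
    simpa using (lg_one (R := R))
  | cons a A ih =>
    rw [Multiset.map_cons, Multiset.prod_cons]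
    have h := lg_mul (lg_lin a) ih
    have e : (fun r => -(Multiset.map (fun α => α ^ r) (a ::ₘ A)).sum) =
        fun r => -a ^ r + -(Multiset.map (fun α => α ^ r) A).sum := by
      funext r
      rw [Multiset.map_cons, Multiset.sum_cons]
      ring
    rw [e]
    exact h

theorem lg_map {S : Type} [CommRing S] (φ : R →+* S) {B : PowerSeries R} {b : ℕ → R}
    (hB : Lg B b) : Lg (PowerSeries.map φ B) (fun r => φ (b r)) := by
  obtain ⟨h1, h2⟩ := hB
  refine ⟨?_, fun m => ?_⟩
  · rw [PowerSeries.coeff_map, h1, map_one]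
  · rw [PowerSeries.coeff_map]
    have := congrArg φ (h2 m)
    rw [map_mul, map_natCast, map_sum] at this
    rw [this]
    refine Finset.sum_congr rfl (fun r _ => ?_)
    rw [map_mul, PowerSeries.coeff_map]

end H13.CZ
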