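import Pool.Agent.H13.CZ.Defs

/-!
# CZ-ORB: the number of non-powers is very divisible by `l`

`orb`: the minimal period `d` of `w` divides `r`, so `D ∣ d` (`Function.minimalPeriod`, `Function.IsPeriodicPt.minimalPeriod_dvd`);
`W` is the disjoint union of the orbits `{w, φ w, ..}` of `d` elements each (`Nat.card` as a sum over the
orbits; e.g. `φ` is a permutation, `Equiv.Perm`, orbits of `Subgroup.zpowers` or `MulAction.zpowers`, class formula; or:
induction on the number of elements, removing one orbit).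

`npow`: choose `z` in the algebraic closure with `z ^ n = y`. `q ^ r - 1 = (q ^ d - 1) e` with
`e = ∑_(i < r / d) q ^ (d i) ≡ r / d ≡ 0` modulo `n`, so `(q ^ r - 1) / n = (q ^ d - 1) (e / n)` and
`z ^ (q ^ r - 1) = y ^ ((q ^ r - 1) / n) = 1` because `y ^ (q ^ d - 1) = 1`; so `z ^ (q ^ r) = z`.

`wdv`: `n = l ^ s`, `l ^ j ∣ r`. If `j + 1 ≤ s` clear. Otherwise let `D = l ^ (j + 1 - s)`, `W` the set counted by `wpt`,
`φ (t, x) = (t ^ q, x ^ q)`; it maps `W` to itself (`ev f (φ p) = (ev f p) ^ q`; if `z ^ n = (ev f p) ^ q` with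
`z ∈ k_r`, then `ev f p = (z ^ (q ^ (r - 1))) ^ n`), `φ ^ r = id` on `W`. Let `p ∈ W`, `d ∣ r`, `φ ^ d p = p`, `y = ev f p`:
`y ^ (q ^ d) = y`. If `D ∤ d`, then `l ^ (j + 1 - s) ∤ d`, and `l ^ j ∣ r = d (r / d)` gives `l ^ s ∣ r / d`; by `npow` `y` is an
`n`-th power in `k_r`: contradiction. So `D ∣ card W` by `orb` and `l ^ (j + 1) ∣ l ^ s * card W`.
-/

set_option autoImplicit false

open Polynomial

noncomputable section

namespace H13.CZ

theorem orb {W : Type} [Finite W] (φ : W → W) (r : ℕ) (hr : r ≠ 0) (hφ : ∀ w, φ^[r] w = w) (D : ℕ)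
    (hD : ∀ w : W, ∀ d : ℕ, d ∣ r → φ^[d] w = w → D ∣ d) : D ∣ Nat.card W := by
  classical
  obtain ⟨r', rfl⟩ : ∃ r', r = r' + 1 := ⟨r - 1, by omega⟩
  let e : Equiv.Perm W :=
    { toFun := φ
      invFun := φ^[r']
      left_inv := fun w => hφ w
      right_inv := fun w => by
        have h := hφ w
        rwa [Function.iterate_succ_apply'] at h }
  have h1 : Nat.card W = Nat.card (Σ ω : MulAction.orbitRel.Quotient (Subgroup.zpowers e) W,
      MulAction.orbit (Subgroup.zpowers e) ω.out) :=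
    Nat.card_congr (MulAction.selfEquivSigmaOrbits (Subgroup.zpowers e) W)
  haveI : Fintype W := Fintype.ofFinite W
  haveI : Fintype (MulAction.orbitRel.Quotient (Subgroup.zpowers e) W) := Fintype.ofFinite _
  rw [h1, Nat.card_sigma]
  refine Finset.dvd_sum fun ω _ => ?_
  haveI : Fintype (MulAction.orbit (Subgroup.zpowers e) ω.out) := Fintype.ofFinite _
  have h2 := MulAction.minimalPeriod_eq_card e ω.out
  rw [Nat.card_eq_fintype_card, ← h2]
  have h3 : (fun x : W => e • x) = φ := rfl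
  rw [h3]
  refine hD ω.out _ ?_ (Function.iterate_minimalPeriod)
  exact Function.IsPeriodicPt.minimalPeriod_dvd (hφ _)

theorem npow {F : Type} [Field F] [Finite F] (n r d : ℕ) (hn : n ≠ 0) (hr : r ≠ 0)
    (hq : n ∣ Nat.card F - 1) (hd : d ∣ r) (hnd : n ∣ r / d) (y : AlgebraicClosure F) (hy : y ≠ 0)
    (hyd : y ^ Nat.card F ^ d = y) :
    ∃ z : AlgebraicClosure F, z ^ Nat.card F ^ r = z ∧ z ^ n = y := by
  obtain ⟨z, hz⟩ := IsAlgClosed.exists_pow_nat_eq y (Nat.pos_of_ne_zero hn)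
  refine ⟨z, ?_, hz⟩
  have hq1 : 1 < Nat.card F := Finite.one_lt_card
  obtain ⟨q, hqq⟩ : ∃ q, q = Nat.card F := ⟨_, rfl⟩
  rw [← hqq] at hq hyd hq1 ⊢
  obtain ⟨e, he⟩ : ∃ e, e = ∑ i ∈ Finset.range (r / d), (q ^ d) ^ i := ⟨_, rfl⟩
  have hqd : 1 ≤ q ^ d := Nat.one_le_pow _ _ (by omega)
  have h1 : e * (q ^ d - 1) + 1 = q ^ r := by
    have h2 := geom_sum_mul_add (q ^ d - 1) (r / d)
    rw [Nat.sub_add_cancel hqd, ← he, ← pow_mul, Nat.mul_div_cancel' hd] at h2
    exact h2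
  have h3 : n ∣ e := by
    rw [← ZMod.natCast_eq_zero_iff, he]
    have h4 : ((q : ℕ) : ZMod n) = 1 := by
      have h5 : ((q - 1 : ℕ) : ZMod n) = 0 := (ZMod.natCast_eq_zero_iff _ _).2 hq
      rw [Nat.cast_sub (by omega), sub_eq_zero] at h5
      simpa using h5
    push_cast
    rw [h4]
    simp only [one_pow, Finset.sum_const, Finset.card_range, nsmul_eq_mul, mul_one]
    exact (ZMod.natCast_eq_zero_iff _ _).2 hnd
  obtain ⟨e', rfl⟩ := h3
  have h6 : y ^ (q ^ d - 1) = 1 := by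
    have h7 : y ^ (q ^ d - 1) * y = 1 * y := by
      rw [← pow_succ, Nat.sub_add_cancel hqd, one_mul]
      exact hyd
    exact mul_right_cancel₀ hy h7
  rw [← h1, pow_succ, show n * e' * (q ^ d - 1) = n * ((q ^ d - 1) * e') by ring, pow_mul, hz, pow_mul, h6,
    one_pow, one_mul]

private theorem ev_frob {F : Type} [Field F] [Finite F] (f : F[X][X]) (a b : AlgebraicClosure F) :
    H13.TA.ev f (a ^ Nat.card F, b ^ Nat.card F) = H13.TA.ev f (a, b) ^ Nat.card F := by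
  haveI : Fintype F := Fintype.ofFinite F
  rw [Nat.card_eq_fintype_card]
  have hs : ∀ x : AlgebraicClosure F, FiniteField.frobeniusAlgHom F (AlgebraicClosure F) x =
      x ^ Fintype.card F := fun x => rfl
  rw [← hs, ← hs, ← hs]
  generalize FiniteField.frobeniusAlgHom F (AlgebraicClosure F) = σ
  unfold H13.TA.ev
  show eval₂ ((aeval (σ a) : F[X] →ₐ[F] AlgebraicClosure F) : F[X] →+* AlgebraicClosure F) (σ b) f =
    (σ : AlgebraicClosure F →+* AlgebraicClosure F)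
      (eval₂ ((aeval a : F[X] →ₐ[F] AlgebraicClosure F) : F[X] →+* AlgebraicClosure F) b f)
  rw [Polynomial.hom_eval₂, Polynomial.aeval_algHom]
  rfl

private theorem ev_frobs {F : Type} [Field F] [Finite F] (f : F[X][X]) (i : ℕ) (a b : AlgebraicClosure F) :
    H13.TA.ev f (a ^ Nat.card F ^ i, b ^ Nat.card F ^ i) = H13.TA.ev f (a, b) ^ Nat.card F ^ i := by
  induction i with
  | zero => simp
  | succ i ih => rw [pow_succ (Nat.card F) i, pow_mul, pow_mul, pow_mul, ev_frob, ih]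

private theorem dvd_aux (l s r j d : ℕ) (hl : l.Prime) (hr : r ≠ 0) (hj : l ^ j ∣ r) (hs : s ≤ j) (hd : d ∣ r)
    (h : ¬ l ^ (j + 1 - s) ∣ d) : l ^ s ∣ r / d := by
  obtain ⟨e, rfl⟩ := hd
  have hd0 : d ≠ 0 := fun h0 => hr (by rw [h0, zero_mul])
  rw [Nat.mul_div_cancel_left _ (Nat.pos_of_ne_zero hd0)]
  obtain ⟨a, d', hd', rfl⟩ := Nat.exists_eq_pow_mul_and_not_dvd hd0 l hl.ne_one
  have ha : a < j + 1 - s := by
    by_contra hc
    exact h ((pow_dvd_pow l (by omega)).trans (dvd_mul_right _ _))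
  have h1 : l ^ (j - a) ∣ d' * e := by
    have h2 : l ^ a * l ^ (j - a) ∣ l ^ a * (d' * e) := by
      rw [← pow_add, show a + (j - a) = j by omega, ← mul_assoc]
      exact hj
    exact Nat.dvd_of_mul_dvd_mul_left (Nat.pow_pos hl.pos) h2
  have h3 : (l ^ (j - a)).Coprime d' := Nat.Coprime.pow_left _ ((Nat.Prime.coprime_iff_not_dvd hl).2 hd')
  exact (pow_dvd_pow l (by omega)).trans (h3.dvd_of_dvd_mul_left h1)

theorem wdv {F : Type} [Field F] [Finite F] (f : F[X][X]) (l s r j : ℕ) (hl : l.Prime)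
    (hr : r ≠ 0) (hq : l ^ s ∣ Nat.card F - 1) (hj : l ^ j ∣ r) :
    l ^ (j + 1) ∣ l ^ s * wpt f (l ^ s) r := by
  by_cases hjs : j + 1 ≤ s
  · exact (pow_dvd_pow l hjs).trans (dvd_mul_right _ _)
  rw [show j + 1 = s + (j + 1 - s) by omega, pow_add]
  apply mul_dvd_mul_left
  unfold wpt
  set q := Nat.card F with hqdef
  let W : Type := {p : AlgebraicClosure F × AlgebraicClosure F //
    (p.1 ^ q ^ r = p.1 ∧ p.2 ^ q ^ r = p.2) ∧ H13.TA.ev f p ≠ 0 ∧
      ¬ ∃ z : AlgebraicClosure F, z ^ q ^ r = z ∧ z ^ l ^ s = H13.TA.ev f p}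
  show l ^ (j + 1 - s) ∣ Nat.card W
  rcases finite_or_infinite W with hW | hW
  swap
  · rw [Nat.card_eq_zero_of_infinite]
    exact dvd_zero _
  have hfix : ∀ p : AlgebraicClosure F × AlgebraicClosure F, p.1 ^ q ^ r = p.1 → p.2 ^ q ^ r = p.2 →
      H13.TA.ev f p ^ q ^ r = H13.TA.ev f p := by
    intro p h1 h2
    have h3 := ev_frobs f r p.1 p.2
    rw [← hqdef, h1, h2] at h3
    exact h3.symm
  let φ : W → W := fun w => ⟨(w.1.1 ^ q, w.1.2 ^ q), by
    obtain ⟨⟨h1, h2⟩, h3, h4⟩ := w.2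
    refine ⟨⟨?_, ?_⟩, ?_, ?_⟩
    · show (w.1.1 ^ q) ^ q ^ r = w.1.1 ^ q
      rw [← pow_mul, mul_comm, pow_mul, h1]
    · show (w.1.2 ^ q) ^ q ^ r = w.1.2 ^ q
      rw [← pow_mul, mul_comm, pow_mul, h2]
    · rw [ev_frob]
      exact pow_ne_zero _ h3
    · rintro ⟨z, hz1, hz2⟩
      rw [ev_frob, ← hqdef] at hz2
      refine h4 ⟨z ^ q ^ (r - 1), ?_, ?_⟩
      · rw [← pow_mul, mul_comm, pow_mul, hz1]
      · rw [← pow_mul, mul_comm, pow_mul, hz2, ← pow_mul, ← pow_succ', show r - 1 + 1 = r by omega]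
        exact hfix w.1 h1 h2⟩
  have hit : ∀ (i : ℕ) (w : W), (φ^[i] w).1 = (w.1.1 ^ q ^ i, w.1.2 ^ q ^ i) := by
    intro i
    induction i with
    | zero => intro w; simp
    | succ i ih =>
      intro w
      rw [Function.iterate_succ_apply']
      show ((φ^[i] w).1.1 ^ q, (φ^[i] w).1.2 ^ q) = _
      rw [ih w]
      show ((w.1.1 ^ q ^ i) ^ q, (w.1.2 ^ q ^ i) ^ q) = _
      rw [← pow_mul, ← pow_mul, ← pow_succ]
  refine orb φ r hr (fun w => Subtype.ext ?_) _ ?_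
  · rw [hit r w]
    exact Prod.ext w.2.1.1 w.2.1.2
  · intro w d hd hw
    by_contra hD
    have h1 : l ^ s ∣ r / d := dvd_aux l s r j d hl hr hj (by omega) hd hD
    have h2 : H13.TA.ev f w.1 ^ q ^ d = H13.TA.ev f w.1 := by
      have h3 := ev_frobs f d w.1.1 w.1.2
      have h4 := hit d w
      rw [hw] at h4
      rw [← hqdef, ← h4] at h3
      exact h3.symm
    obtain ⟨z, hz1, hz2⟩ := npow (F := F) (l ^ s) r d (pow_ne_zero _ hl.ne_zero) hr hq hd h1
      (H13.TA.ev f w.1) w.2.2.1 h2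
    exact w.2.2.2 ⟨z, hz1, hz2⟩

end H13.CZ
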