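import Pool.Agent.H13.CZ.Cnt
import Pool.Agent.H13.CZ.Orb
import Pool.Agent.H13.CZ.Exl
import Pool.Agent.H13.CZ.Asm

/-!
# CZ-MAIN: `q` is not a Frobenius eigenvalue of the surface `z ^ (l ^ s) = f(t, x)`
-/

set_option autoImplicit false

open Polynomial

noncomputable section

namespace H13.CZ

theorem noeig {F : Type} [Field F] [Finite F] {f : F[X][X]} {V : ℤ[X]} {h : ℕ}
    (hV : H13.CB.IsZ f V h) (l s : ℕ) (hl : l.Prime) (hs : s ≠ 0) (hq : l ^ s ∣ Nat.card F - 1)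
    (hlh : ¬ l ∣ h) (A : Multiset ℂ) (hA : ∀ r : ℕ, r ≠ 0 → (spt f (l ^ s) r : ℂ) =
      (Nat.card F : ℂ) ^ (2 * r) + (A.map fun α => α ^ r).sum) : (Nat.card F : ℂ) ∉ A := by
  have hn : l ^ s ≠ 0 := pow_ne_zero _ hl.ne_zero
  have hq2 : 2 ≤ Nat.card F := Finite.one_lt_card
  have hlq : l ∣ Nat.card F - 1 := (dvd_pow_self l hs).trans hq
  obtain ⟨E, hE, hEl⟩ := exl l hl (fun r => ((l ^ s * wpt f (l ^ s) r : ℕ) : ℤ))
    (fun r j hr hj => by exact_mod_cast wdv f l s r j hl hr hq hj)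
  refine asm l (l ^ s) (Nat.card F) h hl hlq hq2 hn V hV.monic hV.one hlh _ E hE hEl A ?_
  intro r hr
  have h1 := cnt f (l ^ s) r hn hr hq
  have h2 := hV.npt r hr
  have h3 : (spt f (l ^ s) r : ℂ) = ((l ^ s : ℕ) : ℂ) * (Nat.card F : ℂ) ^ (2 * r) -
      (((l ^ s : ℕ) : ℂ) - 1) * (H13.TA.npt f r : ℂ) - ((l ^ s : ℕ) : ℂ) * (wpt f (l ^ s) r : ℂ) := by
    have h4 := congrArg (Int.cast : ℤ → ℂ) h1
    push_cast at h4 ⊢
    exact h4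
  rw [hA r hr, h2] at h3
  have h5 : (A.map fun α => α ^ r).sum = ((l ^ s : ℕ) : ℂ) * (Nat.card F : ℂ) ^ (2 * r) -
      (((l ^ s : ℕ) : ℂ) - 1) * ((Nat.card F : ℂ) ^ r - ((V.aroots ℂ).map fun ρ => ρ ^ r).sum) -
      ((l ^ s : ℕ) : ℂ) * (wpt f (l ^ s) r : ℂ) - (Nat.card F : ℂ) ^ (2 * r) := by
    rw [← h3]
    ring
  rw [h5]
  push_cast
  ring

end H13.CZ
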